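import Pool.Agent.H543R3.PC.Final

set_option autoImplicit false

/-!
# The Borel complexity of: there is a complete disjoint `coNP` pair

This file states a theorem of the library `Pool.Agent.H543R3.PC` of the starting files (helper543
and others), which no result file stated before.
-/

namespace Pool.Agent.Results.MP_46935e_lc.BorelComplexity

open Pool.Agent.H628R3.RO

/-- Relative to `A` some disjoint `coNP` pair is complete for the disjoint `coNP` pairs. -/
def HasComplete (A : Oracle) : Prop :=
  ∃ K₀ K₁ : Set (List Bool), IsPair (IsCoNP A) K₀ K₁ ∧
    ∀ L₀ L₁, IsPair (IsCoNP A) L₀ L₁ → RedPair A L₀ L₁ K₀ K₁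

/-- The set of the oracles `A` such that `HasComplete A` holds is `Σ⁰₄`-complete. -/
theorem result : H556R2.Sigma04Complete {A : Oracle | HasComplete A} :=
  Pool.Agent.H543R3.PC.dconp_complete

end Pool.Agent.Results.MP_46935e_lc.BorelComplexity
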