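import Pool.Agent.TH654.TU.Main

set_option autoImplicit false

/-!
# Relative to a random oracle no disjoint `coNP` pair is hard even for `UP ∩ coUP`

Polynomial time is Mathlib's `Turing.TM2ComputableInPolyTime`; the oracle classes are those of
`Pool.Agent.H628R3.RO.Defs`.

For almost every oracle `A` and every disjoint `coNP` pair `(K₀, K₁)` relative to `A` there is a
language `L` in `UP ∩ coUP` relative to `A` such that the complementary pair `(L, Lᶜ)` does not
reduce to `(K₀, K₁)`. So there is no complete disjoint `coNP` pair, and no disjoint `coNP` pair is
hard for any class of disjoint pairs that contains the pairs `(L, Lᶜ)` with `L` in `UP ∩ coUP`.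

A disjoint `coNP` pair gives the total search problem: show that `x ∉ K₁` or that `x ∉ K₀`. The
theorem follows from: no total `NP` search problem decides all languages in `UP ∩ coUP` by one call
(`Pool.Agent.TH654.TU.main_D`, built on the libraries of helpers 583, 628 and 673 of earlier
rounds).
-/

namespace Pool.Agent.Results.MP_46935e_lc.RandomOracle

open Pool.Agent.H628R3.RO

/-- For almost every oracle `A`: for every disjoint `coNP` pair `(K₀, K₁)` relative to `A` there is
a language `L` such that `L` and its complement are in `UP` relative to `A`, and the pair `(L, Lᶜ)`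
does not reduce to `(K₀, K₁)` by a function computable in polynomial time relative to `A`. -/
theorem result : ∀ᵐ A ∂randomOracle, ∀ K₀ K₁ : Set (List Bool), IsPair (IsCoNP A) K₀ K₁ →
    ∃ L : Set (List Bool), IsUP A L ∧ IsUP A Lᶜ ∧ ¬ RedPair A L Lᶜ K₀ K₁ :=
  Pool.Agent.TH654.TU.main_coPair

end Pool.Agent.Results.MP_46935e_lc.RandomOracle
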